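import Pool.Agent.P8H50.NK.PDefs
import Pool.Agent.W602.GT.SpDefs
import Pool.Agent.W603.LV.Root
import Pool.Agent.W603.PV.Hgt

/-!
Project NK (helper50), fourth part: degrees of curves, the core of the package CBD.
-/

set_option autoImplicit false

open FF Pool.Agent.W603.LV Pool.Agent.W602.GT
open Pool.Agent.W603.PV (pht pht_le)

namespace Pool.Agent.P8H65.NK

open Pool.Agent.P8H50.NK

/-- the bound for the degrees, from the specialisation and the bound for the heights -/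
theorem cbd_core {s : ℕ} {n : Fin s → ℕ} {r : ℕ} (D : PDat ℂ n r) {M : ℕ}
    (O : ∀ (L : Type) [Field L] [Algebra ℂ L], (Fin (M + 1) → L) → Prop)
    (hD : ∃ C : ℕ, ∀ (K : Type) [Field K] [Algebra ℂ K] [IsFF ℂ K] (y : ∀ j, Fin (n j + 1) → K)
      (z : Fin r → K), D.Pt y z → ∀ j a, hgt ℂ (y j a) ≤ C * max (canDeg ℂ K) 0)
    (i1 : Fin (M + 1)) (G : MvPolynomial (Fin (M + 1)) ℂ) (d : Fin (M + 1) → ℕ)
    (g : Fin (M + 1) → ℕ → MvPolynomial (Σ j, Fin (n j + 1)) ℂ)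
    (hmain : ∀ (L : Type) [Field L] [Algebra ℂ L] (f : Fin (M + 1) → L), O L f → val f G ≠ 0 →
      f i1 ≠ 0 ∧ ∃ (y' : ∀ j, Fin (n j + 1) → L) (z' : Fin r → L), D.Pt y' z' ∧
        ∀ i, MvPolynomial.aeval (fl y') (g i (d i)) ≠ 0 ∧
          ∑ j ∈ Finset.range (d i + 1), MvPolynomial.aeval (fl y') (g i j) * (f i / f i1) ^ j = 0) :
    ∃ B : ℕ, ∀ (L : Type) [Field L] [Algebra ℂ L] [IsFF ℂ L] (f : Fin (M + 1) → L), O L f →
      val f G ≠ 0 → pht ℂ f ≤ B * max (canDeg ℂ L) 0 := by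
  classical
  obtain ⟨C0, hC⟩ := hD
  obtain ⟨N, hN⟩ : ∃ N : ℕ, N = Fintype.card (Σ j, Fin (n j + 1)) := ⟨_, rfl⟩
  obtain ⟨A, hA⟩ : ∃ A : ℕ, A = ∑ i, ∑ j ∈ Finset.range (d i + 1),
    (g i j).totalDegree * (N * C0) := ⟨_, rfl⟩
  refine ⟨A, ?_⟩
  intro L _ _ _ f hf hfG
  obtain ⟨hf1, y', z', hP, hrel⟩ := hmain L f hf hfG
  obtain ⟨χ, hχ⟩ : ∃ χ : ℤ, χ = max (canDeg ℂ L) 0 := ⟨_, rfl⟩
  have h1 : ∀ p, hgt ℂ (fl y' p) ≤ C0 * χ := by
    intro p
    rw [hχ]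
    exact hC L y' z' hP p.1 p.2
  have h2 : ∀ i j, hgt ℂ (MvPolynomial.aeval (fl y') (g i j)) ≤
      ((g i j).totalDegree * (N * C0) : ℕ) * χ := by
    intro i j
    refine (hgt_mvpoly (k := ℂ) (fl y') (g i j)).trans ?_
    have h3 : ∑ c, hgt ℂ (fl y' c) ≤ (N : ℤ) * (C0 * χ) := by
      refine (Finset.sum_le_sum fun c _ => h1 c).trans (le_of_eq ?_)
      rw [Finset.sum_const, Finset.card_univ, nsmul_eq_mul, hN]
    refine (mul_le_mul_of_nonneg_left h3 (Nat.cast_nonneg (α := ℤ) (g i j).totalDegree)).trans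
      (le_of_eq ?_)
    push_cast
    ring
  have h4 : ∀ i, hgt ℂ (f i / f i1) ≤ (∑ j ∈ Finset.range (d i + 1),
      (g i j).totalDegree * (N * C0) : ℕ) * χ := by
    intro i
    refine (hgt_root (k := ℂ) (fun j => MvPolynomial.aeval (fl y') (g i j)) (hrel i).1 _
      (hrel i).2).trans ?_
    rw [add_comm, ← Finset.sum_range_succ (fun j => hgt ℂ (MvPolynomial.aeval (fl y') (g i j)))]
    refine (Finset.sum_le_sum fun j _ => h2 i j).trans (le_of_eq ?_)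
    rw [← Finset.sum_mul]
    push_cast
    rfl
  rw [← hχ]
  refine (pht_le (k := ℂ) f hf1).trans ((Finset.sum_le_sum fun j _ => h4 j).trans (le_of_eq ?_))
  rw [← Finset.sum_mul, hA]
  push_cast
  rfl

end Pool.Agent.P8H65.NK
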