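import Pool.Agent.P8H50.NK.Stm4
import Pool.Agent.P8H65.NK.CbdCore

/-!
Project NK (helper50), fourth part: package CBD (degrees of curves).
-/

set_option autoImplicit false

open FF Pool.Agent.W603.LV Pool.Agent.W602.GT

namespace Pool.Agent.P8H65.NK

open Pool.Agent.P8H50.NK
open Pool.Agent.Y216 (OnVar CurveBound)

/-- **CBD.** -/
theorem cbd (hS : S_SPM) (hD : S_DEG) : S_CBD := by
  intro s n r D K _ _ y z hG hP halg M v hv hgen
  obtain ⟨i1, G, d, g, hGf, hvG, hmain⟩ := hS ℂ s n r D K y z hG hP halg M v hv hgen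
  exact ⟨G, hGf, hvG, cbd_core D (fun L _ _ f => OnVar ℂ v f) (hD s n r D hG) i1 G d g
    (fun L _ _ f hf hfG => hmain L f hf hfG)⟩

end Pool.Agent.P8H65.NK
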