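import Mathlib

/-!
Project NK (helper50), fourth part: package EPS (a numbering of the coordinates).
-/

set_option autoImplicit false

namespace Pool.Agent.P8H65.NK

/-- **EPS** (this is `Pool.Agent.P8H50.NK.S_EPS`). -/
theorem eps : ∀ (s : ℕ) (n : Fin s → ℕ) (b : ∀ j, Fin (n j + 1)),
    ∃ ε : (Σ j, Fin (n j + 1)) ≃ Fin (∑ j, n j) ⊕ Fin s, ∀ j, ε ⟨j, b j⟩ = Sum.inr j := by
  classical
  intro s n b
  obtain ⟨f, hf0⟩ : ∃ f : Fin s → (Σ j, Fin (n j + 1)), f = fun j => ⟨j, b j⟩ := ⟨_, rfl⟩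
  have hf : Function.Injective f := by
    intro i j h
    rw [hf0] at h
    exact congrArg Sigma.fst h
  have hc : Fintype.card {p // p ∉ Set.range f} = ∑ j, n j := by
    rw [Fintype.card_subtype_compl, Fintype.card_sigma]
    have h1 : Fintype.card {p // p ∈ Set.range f} = s := by
      have := Set.card_range_of_injective hf
      rw [Fintype.card_fin] at this
      convert this
    rw [h1]
    simp only [Fintype.card_fin, Finset.sum_add_distrib, Finset.sum_const, Finset.card_univ,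
      smul_eq_mul, mul_one]
    omega
  obtain ⟨e1, he1⟩ : ∃ e1 : Fin s ≃ {p // p ∈ Set.range f}, ∀ j, (e1 j : Σ j, Fin (n j + 1)) = f j :=
    ⟨Equiv.ofInjective f hf, fun j => rfl⟩
  refine ⟨(Equiv.sumCompl (fun p => p ∈ Set.range f)).symm.trans ((Equiv.sumComm _ _).trans
    (Equiv.sumCongr (Fintype.equivFinOfCardEq hc) e1.symm)), fun j => ?_⟩
  have h1 : (⟨j, b j⟩ : Σ j, Fin (n j + 1)) = f j := by rw [hf0]
  have h2 : (Equiv.sumCompl (fun p => p ∈ Set.range f)).symm (f j) = Sum.inl (e1 j) := by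
    rw [Equiv.symm_apply_eq, Equiv.sumCompl_apply_inl, he1]
  rw [h1, Equiv.trans_apply, h2, Equiv.trans_apply, Equiv.sumComm_apply, Sum.swap_inl,
    Equiv.sumCongr_apply, Sum.map_inr, Equiv.symm_apply_apply]

end Pool.Agent.P8H65.NK
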